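import Pool.Agent.H334.Master

/-!
MP_c971d3_al: the large finite blocks of a barely transitive group of finitary permutations.
-/

set_option autoImplicit false

namespace Pool.Agent.Results.MP_c971d3_al.LargeBlocks

open Pool.Agent.H334.Returns

variable {Ω : Type*}

/-- `B` is a finite block: every `g` maps `B` to `B` or to a set disjoint from `B`. -/
def FiniteBlock (G : Type*) [Group G] [MulAction G Ω] (B : Set Ω) : Prop :=
  B.Finite ∧ ∀ g : G, (fun b => g • b) '' B = B ∨ Disjoint ((fun b => g • b) '' B) B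

/-- `t` moves no point outside `B`. -/
def Inside {G : Type*} [Group G] [MulAction G Ω] (B : Set Ω) (t : G) : Prop :=
  ∀ c, c ∉ B → t • c = c

/-- For some `y ∈ G` and `a ∈ B` with `y a ∉ B`, the first point `y ^ q a`, `q > 0`, which lies
in `B` is the image of `a` under an element moving no point outside `B`. -/
def ReturnsInside (G : Type*) [Group G] [MulAction G Ω] (B : Set Ω) : Prop :=
  ∃ y t : G, Inside B t ∧ ∃ a ∈ B, ∃ q : ℕ, 0 < q ∧ y • a ∉ B ∧
    (∀ j, 0 < j → j < q → y ^ j • a ∉ B) ∧ t • a = y ^ q • a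

/-- Some cycle of an element of `G` is not contained in `B` and meets `B` in at least one and at
most `k` points. -/
def MeetsFew (G : Type*) [Group G] [MulAction G Ω] (k : ℕ) (B : Set Ω) : Prop :=
  ∃ y : G, ∃ a ∈ B, (∃ n : ℤ, y ^ n • a ∉ B) ∧ (B ∩ {b | ∃ n : ℤ, y ^ n • a = b}).ncard ≤ k

/-- `k > 0` and the `k`-th power of every element stabilising `B` agrees on `B` with an element
moving no point outside `B`. -/
def PowersInside (G : Type*) [Group G] [MulAction G Ω] (k : ℕ) (B : Set Ω) : Prop :=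
  0 < k ∧ ∀ g : G, (fun b => g • b) '' B = B → ∃ t : G, Inside B t ∧ ∀ a ∈ B, t • a = g ^ k • a

/-- For every `y` moving the block `B` there are `s, t` moving no point outside `B` such that some
power of `y * s` agrees with `t` on `B` and `t` moves some translate `c E` of the block `E`. -/
def MovesInside (G : Type*) [Group G] [MulAction G Ω] (E B : Set Ω) : Prop :=
  ∀ y : G, (fun b => y • b) '' B ≠ B → ∃ s t : G, Inside B s ∧ Inside B t ∧ ∃ m : ℕ,
    (∀ a ∈ B, t • a = (y * s) ^ m • a) ∧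
      ∃ c : G, (fun b => t • b) '' ((fun b => c • b) '' E) ≠ (fun b => c • b) '' E

theorem aux {G : Type*} [Group G] [MulAction G Ω] [Infinite Ω]
    (hfin : ∀ g : G, {a : Ω | g • a ≠ a}.Finite)
    (htr : ∀ a b : Ω, ∃ g : G, g • a = b)
    (h : ∀ E : Set Ω, FiniteBlock G E → E.Nonempty → ∃ k : ℕ, ∀ F : Set Ω, F.Finite →
      ∃ B : Set Ω, F ⊆ B ∧ E ⊆ B ∧ FiniteBlock G B ∧
        (ReturnsInside G B ∨ MeetsFew G k B ∨ PowersInside G k B ∨ MovesInside G E B)) :
    ∃ H : Subgroup G, H ≠ ⊤ ∧ ∃ a : Ω, (MulAction.orbit H a).Infinite := by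
  refine master hfin htr (fun E hEf hE hEne => ?_)
  obtain ⟨k, hk⟩ := h E ⟨hEf, of_blk hE⟩ hEne
  refine ⟨k, fun F hF => ?_⟩
  obtain ⟨B, hFB, hEB, ⟨hBf, hBb⟩, hB⟩ := hk F hF
  refine ⟨B, hFB, hEB, hBf, blk_of hBb, ?_⟩
  rcases hB with ⟨y, t, hts, a, ha, q, hq, hya, hlt, hta⟩ | h | ⟨hk0, hp⟩ | hm
  · exact Or.inl ⟨t, y, a, ha, q, hq, hya, hlt, hts, hta⟩
  · exact Or.inr (Or.inl h)
  · exact Or.inr (Or.inr (Or.inl ⟨hk0, fun g hg => hp g (mem_U_iff_image.1 hg)⟩))
  · refine Or.inr (Or.inr (Or.inr (fun y hy => ?_)))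
    obtain ⟨s, t, hs, ht, m, hm1, c, hm2⟩ := hm y (fun h => hy (mem_U_iff_image.2 h))
    exact ⟨s, t, m, hs, ht, hm1, c⁻¹, fun h => hm2 (image_of_conj (by rwa [inv_inv] at h))⟩

theorem result {G : Type*} [Group G] [MulAction G Ω] [FaithfulSMul G Ω] [Infinite Ω]
    (hfin : ∀ g : G, {a : Ω | g • a ≠ a}.Finite)
    (htr : ∀ a b : Ω, ∃ g : G, g • a = b)
    (hbt : ∀ H : Subgroup G, H ≠ ⊤ → ∀ a : Ω, (MulAction.orbit H a).Finite) :
    ∃ E : Set Ω, FiniteBlock G E ∧ E.Nonempty ∧ ∀ k : ℕ, ∃ F : Set Ω, F.Finite ∧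
      ∀ B : Set Ω, F ⊆ B → E ⊆ B → FiniteBlock G B →
        ¬ ReturnsInside G B ∧ ¬ MeetsFew G k B ∧ ¬ PowersInside G k B ∧ ¬ MovesInside G E B := by
  by_contra hcon
  push Not at hcon
  obtain ⟨H, hH, a, ha⟩ := aux hfin htr (by
    intro E hE hEne
    obtain ⟨k, hk⟩ := hcon E hE hEne
    refine ⟨k, fun F hF => ?_⟩
    obtain ⟨B, h1, h2, h3, h4⟩ := hk F hF
    refine ⟨B, h1, h2, h3, ?_⟩
    by_cases h5 : ReturnsInside G B
    · exact Or.inl h5
    by_cases h6 : MeetsFew G k B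
    · exact Or.inr (Or.inl h6)
    by_cases h7 : PowersInside G k B
    · exact Or.inr (Or.inr (Or.inl h7))
    · exact Or.inr (Or.inr (Or.inr (h4 h5 h6 h7))))
  exact ha (hbt H hH a)

end Pool.Agent.Results.MP_c971d3_al.LargeBlocks
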